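import Pool.Agent.Helper84.BT.Goals

set_option autoImplicit false

namespace Pool.Agent.Helper41.BT.WR

theorem t : Pool.Agent.Helper84.BT.S_WR := by
  intro F P Q A k J hF hP
  rcases J with _ | J
  · simp
  obtain ⟨R, hR⟩ := hP
  have hPe : P = F * Q + PowerSeries.X ^ (J + 1) * R := by
    rw [← hR]; ring
  have hd : PowerSeries.derivative ℤ P =
      PowerSeries.derivative ℤ F * Q + F * PowerSeries.derivative ℤ Q +
        (((J : PowerSeries ℤ) + 1) * PowerSeries.X ^ J * R +
          PowerSeries.X ^ (J + 1) * PowerSeries.derivative ℤ R) := by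
    rw [hPe]
    simp only [map_add, Derivation.leibniz, Derivation.leibniz_pow, smul_eq_mul,
      PowerSeries.derivative_X, nsmul_eq_mul, Nat.add_sub_cancel]
    push_cast
    ring
  have hdX : (PowerSeries.X : PowerSeries ℤ) ^ (J + 1 - 1) = PowerSeries.X ^ J := by simp
  rw [hdX]
  refine ⟨PowerSeries.C k * PowerSeries.X * R * Q -
    A * ((((J : PowerSeries ℤ) + 1) * R + PowerSeries.X * PowerSeries.derivative ℤ R) * Q -
      PowerSeries.X * R * PowerSeries.derivative ℤ Q), ?_⟩
  rw [hd, hPe]
  linear_combination (-(Q ^ 2)) * hF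

end Pool.Agent.Helper41.BT.WR
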